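import Mathlib
import Pool.Agent.H.MP_1f2de8_an.D

set_option autoImplicit false

namespace Pool.Agent.H.MP_ea326e_an

open Filter Topology Metric Complex Set
open scoped Real ComplexConjugate

theorem minp {K : ℂ → ℂ} (hK : DifferentiableOn ℂ K (closedBall 0 1))
    (h : ∀ z : ℂ, ‖z‖ = 1 → 0 ≤ (K z).re) : 0 ≤ (K 0).re := by
  have := norm_le_of_forall_mem_frontier_norm_le (f := fun z => exp (-K z)) (C := 1)
    (isBounded_ball (x := (0 : ℂ)) (r := 1))
    (DifferentiableOn.diffContOnCl (by rw [closure_ball _ one_ne_zero]; exact hK.neg.cexp))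
    (fun z hz => by
      rw [frontier_ball _ one_ne_zero] at hz
      simpa [norm_exp] using h z (by simpa using hz)) (subset_closure (mem_ball_self one_pos))
  simpa [norm_exp] using this

theorem pole {G : ℂ → ℂ} {a : ℝ} {c : ℂ} (a0 : 0 < a) (a1 : a < 1)
    (hG : DifferentiableOn ℂ G (closedBall 0 1)) (G0 : G (-a) = 0) (G1 : HasDerivAt G c (-a))
    (h : ∀ z : ℂ, ‖z‖ = 1 → 0 ≤ (G z / (z + a) ^ 2).re) : a * c.re ≤ (G 0).re := by
  have m : closedBall (0 : ℂ) 1 ∈ 𝓝 (-a : ℂ) := closedBall_mem_nhds_of_mem (by simpa [abs_of_pos a0])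
  have n : ∀ z ∈ closedBall (0 : ℂ) 1, 1 + a * z ≠ 0 := fun z hz => MP_1f2de8_an.n1 (by
    simpa [abs_of_pos a0] using mul_lt_one_of_nonneg_of_lt_one_left a0.le a1 (mem_closedBall_zero_iff.1 hz))
  have e : ∀ z : ℂ, z + a ≠ 0 → dslope (dslope G (-a)) (-a) z = G z / (z + a) ^ 2 - c / (z + a) :=
    fun z hz => by
      have : z ≠ -a := fun e => hz (by simp [e])
      simp only [dslope_of_ne _ this, dslope_same, slope_def_field, G0, G1.deriv, sub_neg_eq_add]
      field_simp; ring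
  have := minp (K := fun z => dslope (dslope G (-a)) (-a) z + conj c * z / (1 + a * z))
    (((differentiableOn_dslope m).2 ((differentiableOn_dslope m).2 hG)).add
      (DifferentiableOn.div (by fun_prop) (by fun_prop) n)) fun z hz => by
      have hc : conj z = z⁻¹ := (inv_eq_conj hz).symm
      have z0 : z ≠ 0 := fun e => by simp [e] at hz
      have := n z (by simp [hz])
      have k : conj (z + a) = (1 + a * z) / z := by simp [hc]; field_simp
      have z1 : z + a ≠ 0 := fun e => by rw [e, map_zero, eq_comm, div_eq_zero_iff] at k; tauto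
      have k2 : conj c * z / (1 + a * z) = conj (c / (z + a)) := by rw [map_div₀, k]; field_simp
      simp only [e z z1, k2, add_re, sub_re, conj_re, sub_add_cancel]
      exact h z hz
  have a0' : (a : ℂ) ≠ 0 := by exact_mod_cast a0.ne'
  simp only [e 0 (by simpa using a0.ne'), zero_add, mul_zero, zero_div, add_zero, ← ofReal_pow, sub_re,
    div_ofReal_re] at this
  rw [sub_nonneg, div_le_div_iff₀ a0 (by positivity)] at this
  nlinarith

variable {E : Type} [NormedAddCommGroup E] [InnerProductSpace ℂ E] {h : E → E} {u v : E}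

theorem disc (hd : DifferentiableOn ℂ h (ball 0 1)) (h0 : h 0 = 0)
    (hD : fderiv ℂ h 0 = ContinuousLinearMap.id ℂ E)
    (hp : ∀ z ∈ ball (0 : E) 1, 0 ≤ (inner ℂ z (h z)).re) (hu : ‖u‖ = 1) (hv : ‖v‖ = 1) {r t M : ℝ}
    (r0 : 0 < r) (t0 : 0 ≤ t) (M1 : 1 < M) (a1 : r * M < 1)
    (h2 : 1 + t ^ 2 < M ^ 2 + (t * ‖inner ℂ u v‖ / M) ^ 2) :
    t * (inner ℂ v (h ((r : ℂ) • u))).re * (1 - (r * M) ^ 2) ≤
      r * (r * M * (1 + t ^ 2) + (1 + (r * M) ^ 2) * t * ‖inner ℂ u v‖) := by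
  have M0 : 0 < M := by linarith
  have M0' : (M : ℂ) ≠ 0 := by exact_mod_cast M0.ne'
  obtain ⟨a, ha⟩ : ∃ a, a = r * M := ⟨_, rfl⟩
  rw [← ha] at a1 ⊢
  have a0 : 0 < a := by rw [ha]; positivity
  obtain ⟨N, hN⟩ : ∃ N : ℂ, N = t * inner ℂ u v / M := ⟨_, rfl⟩
  have nN : ‖N‖ = t * ‖inner ℂ u v‖ / M := by simp [hN, abs_of_nonneg t0, abs_of_pos M0]
  have n0 : ∀ z ∈ closedBall (0 : ℂ) 1, 1 + a * z ≠ 0 ∧ ‖z + a‖ ≤ ‖1 + a * z‖ := fun z hz => by
    rw [mem_closedBall_zero_iff] at hz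
    refine ⟨MP_1f2de8_an.n1 (by
      simpa [abs_of_pos a0] using mul_lt_one_of_nonneg_of_lt_one_left a0.le a1 hz),
      le_of_sq_le_sq ?_ (norm_nonneg _)⟩
    have := pow_le_one₀ (n := 2) (norm_nonneg z) hz
    simp only [← normSq_eq_norm_sq, normSq_apply] at this ⊢
    simp; nlinarith [mul_nonneg (sub_nonneg.2 this) (show 0 ≤ 1 - a ^ 2 by nlinarith)]
  have n1 : ∀ z ∈ closedBall (0 : ℂ) 1, ‖u - (t * z : ℂ) • v‖ < ‖M - N * z‖ := fun z hz => by
    have := pow_le_one₀ (n := 2) (norm_nonneg z) (mem_closedBall_zero_iff.1 hz)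
    have e2 : (M * conj (N * z)).re = (t * z * inner ℂ u v).re := by
      rw [re_ofReal_mul, conj_re, ← re_ofReal_mul, hN]; congr 1; field_simp
    refine lt_of_pow_lt_pow_left₀ 2 (norm_nonneg _) ?_
    rw [norm_sub_sq (𝕜 := ℂ), inner_smul_right, norm_smul, ← normSq_eq_norm_sq (_ - _), normSq_sub,
      e2, hu, hv, normSq_eq_norm_sq, normSq_eq_norm_sq, norm_mul, norm_mul, norm_real, norm_real,
      Real.norm_of_nonneg t0, Real.norm_of_nonneg M0.le, nN]
    simp only [RCLike.re_to_complex, mul_pow, mul_one]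
    have k1 : 0 < M ^ 2 - 1 := by nlinarith
    rcases (sq_nonneg ‖z‖).eq_or_lt with e | e
    · rw [← e]; linarith
    · nlinarith [mul_nonneg (sub_nonneg.2 this) k1.le, mul_pos e (sub_pos.2 h2)]
  have n2 : ∀ z ∈ closedBall (0 : ℂ) 1, M - N * z ≠ 0 := fun z hz =>
    norm_pos_iff.1 ((norm_nonneg _).trans_lt (n1 z hz))
  obtain ⟨φ, hφ⟩ : ∃ φ : ℂ → E, φ = fun z =>
    ((z + a) / (1 + a * z) / (M - N * z)) • (u - (t * z : ℂ) • v) := ⟨_, rfl⟩
  have mφ : ∀ z ∈ closedBall (0 : ℂ) 1, φ z ∈ ball (0 : E) 1 := fun z hz => by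
    have := norm_pos_iff.2 (n2 z hz)
    simp only [hφ, mem_ball_zero_iff, norm_smul, norm_div]
    rw [div_mul_eq_mul_div, div_lt_one this]
    exact (mul_le_of_le_one_left (norm_nonneg _) (div_le_one_of_le₀ (n0 z hz).2 (norm_nonneg _))).trans_lt
      (n1 z hz)
  have dφ : DifferentiableOn ℂ φ (closedBall 0 1) := hφ ▸
    ((DifferentiableOn.div (by fun_prop) (by fun_prop) fun z hz => (n0 z hz).1).div (by fun_prop)
      n2).smul (by fun_prop)
  have di : ∀ y : E, DifferentiableOn ℂ (fun z => inner ℂ y (h (φ z))) (closedBall 0 1) := fun y =>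
    (innerSL ℂ y).differentiable.comp_differentiableOn (hd.comp dφ mφ)
  have ma : (-a : ℂ) ∈ closedBall (0 : ℂ) 1 := by simpa [abs_of_pos a0] using a1.le
  have φ0 : φ (-a) = 0 := by simp [hφ]
  have q0 := n2 _ ma
  have q1 := (n0 _ ma).1
  have d1 : HasDerivAt φ ((1 / (1 + a * -a) / (M - N * -a) : ℂ) • (u - (t * -a : ℂ) • v)) (-a) := by
    have := ((((hasDerivAt_id' (-a : ℂ)).add_const (a : ℂ)).fun_div (((hasDerivAt_id' _).const_mul
      (a : ℂ)).const_add 1) q1).fun_div (((hasDerivAt_id' _).const_mul N).const_sub (M : ℂ)) q0).fun_smul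
      ((((hasDerivAt_id' (-a : ℂ)).const_mul (t : ℂ)).smul_const v).const_sub u)
    rw [hφ]
    refine this.congr_deriv ?_
    simp only [neg_add_cancel, zero_div, zero_smul, zero_mul, sub_zero, zero_add]
    congr 1; field_simp
  have d2 : ∀ y : E, HasDerivAt (fun z => inner ℂ y (h (φ z))) _ (-a) := fun y =>
    (innerSL ℂ y).hasFDerivAt.comp_hasDerivAt _ ((φ0 ▸ hD ▸ (hd.differentiableAt
      (ball_mem_nhds 0 one_pos)).hasFDerivAt).comp_hasDerivAt _ d1)
  have := pole a0 a1 (G := fun z => (M - N * z) * (z * inner ℂ u (h (φ z)) - t * inner ℂ v (h (φ z))))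
    (by have := di u; have := di v; fun_prop) (by simp [φ0, h0])
    ((((hasDerivAt_id' _).const_mul N).const_sub (M : ℂ)).fun_mul
      (((hasDerivAt_id' _).fun_mul (d2 u)).fun_sub ((d2 v).const_mul (t : ℂ)))) fun z hz => by
      have hz' : z ∈ closedBall (0 : ℂ) 1 := by simp [hz]
      have hc : conj z = z⁻¹ := (inv_eq_conj hz).symm
      have z0 : z ≠ 0 := fun e => by simp [e] at hz
      have k0 := (n0 z hz').1
      have k3 : 1 + z * a ≠ 0 := mul_comm z _ ▸ k0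
      have k : conj (z + a) = (1 + a * z) / z := by simp [hc]; field_simp
      have z1 : z + a ≠ 0 := fun e => by rw [e, map_zero, eq_comm, div_eq_zero_iff] at k; tauto
      have k1 : conj (1 + a * z) = (z + a) / z := by simp [hc]; field_simp
      have k2 := (map_ne_zero (starRingEnd ℂ)).2 (n2 z hz')
      refine (mul_nonneg (div_nonneg (normSq_nonneg (M - N * z)) (normSq_nonneg (z + a)))
        (hp _ (mφ z hz'))).trans_eq ?_
      rw [← re_ofReal_mul, ofReal_div, ← mul_conj, ← mul_conj, k]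
      congr 1
      generalize h (φ z) = y
      simp only [hφ, inner_smul_left, inner_sub_left, map_div₀, k, k1]
      simp only [map_mul, conj_ofReal, hc]
      field_simp
  have e0 : φ 0 = (r : ℂ) • u := by
    simp only [hφ, ha, mul_zero, zero_smul, sub_zero, zero_add, add_zero, div_one, ofReal_mul]
    rw [mul_div_cancel_right₀ _ M0']
  have e1 := re_le_norm (inner ℂ u v)
  have e2 : 0 < 1 - a ^ 2 := by nlinarith
  simp only [φ0, h0, e0, inner_zero_right, mul_zero, sub_zero, zero_add, zero_mul, zero_sub,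
    innerSL_apply_apply, ContinuousLinearMap.id_apply, inner_smul_right, inner_sub_right,
    inner_self_eq_norm_sq_to_K, hu, hv] at this
  rw [← inner_conj_symm v u] at this
  generalize inner ℂ u v = σ at *
  generalize inner ℂ v (h _) = w at *
  rw [show ∀ x y : ℂ, (M - N * -a) * (-a * (1 / (1 + a * -a) / (M - N * -a) * x) -
    t * (1 / (1 + a * -a) / (M - N * -a) * y)) = ((1 - a ^ 2 : ℝ) : ℂ)⁻¹ * -(a * x + t * y) from
      fun x y => by
        push_cast
        rw [show (1 : ℂ) - a ^ 2 = 1 + a * -a by ring]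
        generalize (M : ℂ) - N * -a = Q at q0
        generalize (1 : ℂ) + a * -a = Q' at q1
        field_simp; ring,
    ← ofReal_inv, re_ofReal_mul] at this
  simp at this
  have e3 := mul_le_mul_of_nonneg_left this e2.le
  rw [mul_left_comm, mul_inv_cancel_left₀ e2.ne'] at e3
  refine le_of_mul_le_mul_left ?_ M0
  rw [← mul_assoc M r, mul_comm M r, ← ha]
  nlinarith [mul_le_mul_of_nonneg_left e1 (show 0 ≤ a * ((1 + a ^ 2) * t) by positivity)]

theorem disc' (hd : DifferentiableOn ℂ h (ball 0 1)) (h0 : h 0 = 0)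
    (hD : fderiv ℂ h 0 = ContinuousLinearMap.id ℂ E)
    (hp : ∀ z ∈ ball (0 : E) 1, 0 ≤ (inner ℂ z (h z)).re) (hu : ‖u‖ = 1) (hv : ‖v‖ = 1) {r t M N : ℝ}
    (r0 : 0 < r) (t0 : 0 ≤ t) (M1 : 1 ≤ M) (a1 : r * M < 1) (h1 : t * ‖inner ℂ u v‖ = M * N)
    (NM : N ≤ M) (h2 : 1 + t ^ 2 = M ^ 2 + N ^ 2) :
    t * (inner ℂ v (h ((r : ℂ) • u))).re * (1 - (r * M) ^ 2) ≤
      r * (r * M * (1 + t ^ 2) + (1 + (r * M) ^ 2) * (M * N)) := by
  have N0 : 0 ≤ M * N := by rw [← h1]; positivity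
  have c : Continuous fun L : ℝ => r * (r * L * (1 + t ^ 2) + (1 + (r * L) ^ 2) * t * ‖inner ℂ u v‖) -
    t * (inner ℂ v (h ((r : ℂ) • u))).re * (1 - (r * L) ^ 2) := by fun_prop
  have := ge_of_tendsto ((c.tendsto M).mono_left (nhdsWithin_le_nhds (s := Ioi M)))
    (mem_of_superset (Ioo_mem_nhdsGT (show M < 1 / r by rw [lt_div_iff₀ r0]; linarith)) fun L hL => by
      have L0 : 0 < L := by linarith [hL.1]
      have k : M ^ 2 < L ^ 2 := by nlinarith [hL.1]
      refine sub_nonneg.2 (disc hd h0 hD hp hu hv r0 t0 (M1.trans_lt hL.1) (by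
        have := (lt_div_iff₀ r0).1 hL.2; linarith) ?_)
      rw [h1, h2, div_pow, ← sub_pos, show L ^ 2 + (M * N) ^ 2 / L ^ 2 - (M ^ 2 + N ^ 2) =
        (L ^ 2 - M ^ 2) * (L ^ 2 - N ^ 2) / L ^ 2 by field_simp; ring]
      have : 0 ≤ N := nonneg_of_mul_nonneg_right N0 (by linarith)
      exact div_pos (mul_pos (by linarith) (by nlinarith)) (by positivity))
  rw [mul_assoc (1 + _) t, h1] at this
  linarith

theorem alg {r σ w : ℝ} (r0 : 0 < r) (r1 : r < 1) (s0 : 0 ≤ σ) (s1 : σ ≤ 1)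
    (h : ∀ t M N : ℝ, 0 ≤ t → 1 ≤ M → r * M < 1 → t * σ = M * N → N ≤ M → 1 + t ^ 2 = M ^ 2 + N ^ 2 →
      t * w * (1 - (r * M) ^ 2) ≤ r * (r * M * (1 + t ^ 2) + (1 + (r * M) ^ 2) * (M * N))) :
    ∃ x ∈ Icc 0 (1 / √3), ∃ s ∈ Icc 0 r, ∀ d c, d = √(1 - 3 * x ^ 2) / (1 - x ^ 2) →
      c = 2 * x / (1 - x ^ 2) ^ 2 → w ≤ √((√(r ^ 2 - s ^ 2) * ((1 + d * s) / (1 - d * s)) +
        c * s ^ 2 / (1 - d * s) ^ 2) ^ 2 + (s * ((1 + d * s) / (1 - d * s))) ^ 2) := by
  rcases s1.eq_or_lt with rfl | s1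
  · refine ⟨0, ⟨le_rfl, by positivity⟩, r, ⟨r0.le, le_rfl⟩, ?_⟩
    rintro _ _ rfl rfl
    have := h 1 1 1 zero_le_one le_rfl (by linarith) rfl le_rfl (by norm_num)
    have e : 0 < 1 - r := by linarith
    simp only [sub_self, Real.sqrt_zero, zero_mul, mul_zero, zero_div, ne_eq, OfNat.ofNat_ne_zero,
      not_false_eq_true, zero_pow, sub_zero, Real.sqrt_one, div_one, one_mul, add_zero, zero_add]
    rw [Real.sqrt_sq (by positivity), ← mul_div_assoc, le_div_iff₀ e]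
    nlinarith
  have p : ∀ M : ℝ, 1 ≤ M → 0 < M ^ 2 - σ ^ 2 := fun M hM => by nlinarith
  obtain ⟨k, hk⟩ : ∃ k : ℝ → ℝ, k = fun M => √((M ^ 2 - 1) / (M ^ 2 - σ ^ 2)) := ⟨_, rfl⟩
  have k0 : ∀ M, 0 ≤ k M := fun M => hk ▸ Real.sqrt_nonneg _
  have k2 : ∀ M, 1 ≤ M → k M ^ 2 * (M ^ 2 - σ ^ 2) = M ^ 2 - 1 := fun M hM => by
    have := p M hM
    simp only [hk]
    rw [Real.sq_sqrt (div_nonneg (by nlinarith) this.le)]; field_simp
  have r2 : 1 < 1 / r := one_lt_one_div r0 r1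
  obtain ⟨M, ⟨M1, M2⟩, hM⟩ := intermediate_value_Ioo r2.le (f := fun M => 2 * (M ^ 2 - 1) * M ^ 2 *
    (1 + r * (σ * k M)) ^ 2 - (M ^ 2 - (σ * k M) ^ 2) * (1 - (r * M) ^ 2) * (1 - (σ * k M) ^ 2))
    (by
      have : ContinuousOn k (Icc 1 (1 / r)) := hk ▸ (ContinuousOn.div (by fun_prop) (by fun_prop)
        fun M hM => (p M hM.1).ne').sqrt
      fun_prop) (show (0 : ℝ) ∈ _ from ⟨by simp [hk, abs_of_pos r0, r1], by
        have := k0 (1 / r)
        have : 0 < (1 / r) ^ 2 - 1 := by nlinarith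
        simp only [mul_one_div_cancel r0.ne', one_pow, sub_self, mul_zero, zero_mul, sub_zero]
        positivity⟩)
  have k3 := k2 M M1.le
  have k4 := k0 M
  have p1 := p M M1.le
  simp only at hM
  generalize k M = q at *
  have M0 : 0 < M := by linarith
  have q0 : 0 < q := k4.lt_of_ne fun e => by rw [← e] at k3; nlinarith
  have q1 : q < 1 := by
    refine lt_of_pow_lt_pow_left₀ 2 zero_le_one (lt_of_mul_lt_mul_right ?_ p1.le)
    nlinarith
  have a1 : r * M < 1 := by have := (lt_div_iff₀ r0).1 M2; linarith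
  have N1 : σ * q < 1 := by nlinarith
  have N0 : 0 ≤ σ * q := by positivity
  have b := h (M * q) M (σ * q) (by positivity) M1.le a1 (by ring) (by linarith) (by linarith)
  have k5 : (M * q) ^ 2 = M ^ 2 + (σ * q) ^ 2 - 1 := by linarith
  generalize σ * q = N at *
  have D0 : 0 < M ^ 2 - N ^ 2 := by nlinarith
  obtain ⟨x, x0, hx⟩ : ∃ x, 0 ≤ x ∧ x ^ 2 = (M ^ 2 - 1) / (M ^ 2 - N ^ 2) :=
    ⟨_, Real.sqrt_nonneg _, Real.sq_sqrt (div_nonneg (by nlinarith) D0.le)⟩
  have Y0 : 0 < (1 - N ^ 2) / (M ^ 2 - N ^ 2) := div_pos (by nlinarith) D0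
  obtain ⟨y, y0, hy⟩ : ∃ y, 0 < y ∧ y ^ 2 = (1 - N ^ 2) / (M ^ 2 - N ^ 2) :=
    ⟨_, Real.sqrt_pos.2 Y0, Real.sq_sqrt Y0.le⟩
  have xy : 1 - x ^ 2 = y ^ 2 := by rw [hx, hy]; field_simp; ring
  obtain ⟨a, ha⟩ : ∃ a, a = r * M := ⟨_, rfl⟩
  have a0 : 0 < a := by rw [ha]; positivity
  have a2 : 0 < 1 - a ^ 2 := sub_pos.2 (pow_lt_one₀ a0.le (ha ▸ a1) two_ne_zero)
  obtain ⟨κ, hκ⟩ : ∃ κ, κ = (N + a * M) / (M + a * N) := ⟨_, rfl⟩
  have κ0 : 0 ≤ κ := by rw [hκ]; positivity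
  have st : (1 - κ ^ 2) * y ^ 2 = 2 * x ^ 2 := by
    rw [hx, hy, hκ]; field_simp; rw [ha]; linear_combination -hM
  have e1 : 1 - κ * a = M * (1 - a ^ 2) / (M + a * N) := by rw [hκ]; field_simp; ring
  have e2 : r ^ 2 - (y * a) ^ 2 = (x * N * r) ^ 2 := by
    simp only [mul_pow, hx, hy, ha]; field_simp; ring
  have e3 : 1 - 3 * x ^ 2 = (κ * y) ^ 2 := by linarith
  refine ⟨x, ⟨x0, le_of_sq_le_sq ?_ (by positivity)⟩, y * a, ⟨by positivity,
    le_of_sq_le_sq (by linarith [sq_nonneg (x * N * r)]) r0.le⟩, ?_⟩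
  · rw [div_pow, Real.sq_sqrt (by norm_num)]; linarith [sq_nonneg (κ * y)]
  rintro _ _ rfl rfl
  rw [e2, e3, xy, Real.sqrt_sq (by positivity), Real.sqrt_sq (by positivity),
    show κ * y / y ^ 2 * (y * a) = κ * a by field_simp]
  generalize hA : x * N * r * _ + _ = A
  generalize hB : y * a * _ = B
  refine le_trans ?_ ((le_abs_self _).trans (Real.abs_le_sqrt (x := (x * A + y * (N / M) * B) / q) ?_))
  · rw [le_div_iff₀ q0]
    have e4 : x * A + y * (N / M) * B = N / M * a * ((1 + κ * a) / (1 - κ * a)) +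
        (1 - κ ^ 2) * a ^ 2 / (1 - κ * a) ^ 2 := by
      have : 2 * x / (y ^ 2) ^ 2 * (y * a) ^ 2 * x = (1 - κ ^ 2) * a ^ 2 := by
        field_simp; linear_combination -st
      rw [← this, ← hA, ← hB, show x * N * r = x * (N / M) * a by rw [ha]; field_simp]
      linear_combination -(N / M * a * ((1 + κ * a) / (1 - κ * a))) * xy
    rw [e4, e1, hκ]
    refine le_of_mul_le_mul_left (a := M * (1 - a ^ 2)) ?_ (by positivity)
    rw [← ha, k5] at b
    refine le_of_eq_of_le (by ring) (b.trans_eq ?_)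
    rw [show r = a / M by rw [ha]; field_simp]
    field_simp; ring
  · have : x ^ 2 + (y * (N / M)) ^ 2 = q ^ 2 := by
      rw [mul_pow, hx, hy]; field_simp; linear_combination -(M ^ 2 - N ^ 2) * k5
    rw [div_pow, div_le_iff₀ (by positivity), ← this]
    linarith [sq_nonneg (x * B - y * (N / M) * A)]

end Pool.Agent.H.MP_ea326e_an
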